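import Pool.Agent.Y247.KB.Ray

/-!
# Unions containing three equal balls do not minimise Dirichlet eigenvalues
-/

set_option autoImplicit false

open MeasureTheory Filter Topology Metric

namespace Pool.Agent.Y247.KB

open Pool.Agent.Helper949.TB

theorem exists_t {a b : ℝ} (ha : 0 ≤ a) (hab : a < b) : ∃ t : ℝ, 0 < t ∧ t < 1 ∧ a < b * t ^ 2 := by
  have hb : 0 < b := ha.trans_lt hab
  refine ⟨Real.sqrt ((a + b) / (2 * b)), Real.sqrt_pos.2 (by positivity), ?_, ?_⟩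
  · rw [Real.sqrt_lt' one_pos, one_pow, div_lt_one (by positivity)]
    linarith
  · rw [Real.sq_sqrt (by positivity)]
    have : b * ((a + b) / (2 * b)) = (a + b) / 2 := by field_simp
    rw [this]
    linarith

theorem exists_root {N : ℕ} (hN : 1 ≤ N) {w : ℝ} (hw : 0 < w) : ∃ u : ℝ, 0 < u ∧ u ^ N = w := by
  refine ⟨w ^ ((N : ℝ)⁻¹), by positivity, ?_⟩
  rw [Real.rpow_inv_natCast_pow hw.le (by omega)]

theorem exists_u {N : ℕ} (hN : 1 ≤ N) {x A : ℝ} (hx : 0 ≤ x) (hA : x < A) :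
    ∃ u : ℝ, 1 < u ∧ u ^ N * x ≤ A := by
  obtain ⟨w, hw1, hw2⟩ : ∃ w : ℝ, 1 < w ∧ w * x ≤ A := by
    rcases hx.eq_or_lt with h | h
    · exact ⟨2, by norm_num, by rw [← h]; simpa using (h ▸ hA).le⟩
    · exact ⟨A / x, by rwa [one_lt_div h], by rw [div_mul_cancel₀ _ h.ne']⟩
  obtain ⟨u, hu, huw⟩ := exists_root hN (zero_lt_one.trans hw1)
  refine ⟨u, ?_, by rw [huw]; exact hw2⟩
  by_contra hc
  push Not at hc
  have := pow_le_one₀ (n := N) hu.le hc
  linarith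

/-- normalisation of the volume -/
theorem ray_volume_one {N k : ℕ} (hN : 1 ≤ N) (hk : 1 ≤ k) {Ω : Set (E N)} (hΩ : IsOpen Ω)
    (hv : volume Ω ≤ 1) {c : ℝ} (hc : c ∈ RaySet N k Ω) :
    ∃ Ω' : Set (E N), IsOpen Ω' ∧ volume Ω' = 1 ∧ c ∈ RaySet N k Ω' := by
  have hc0 := raySet_nonneg N k hk Ω c hc
  have hne : Ω.Nonempty := by
    obtain ⟨V, hV, hVv⟩ := hc
    have hVb : V ≠ ⊥ := by
      rintro rfl
      rw [finrank_bot] at hV
      omega
    obtain ⟨v, hvV, hv0⟩ := Submodule.exists_mem_ne_zero_of_ne_bot hVb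
    obtain ⟨x, hx⟩ := Function.ne_iff.1 hv0
    exact ⟨x, (hVv v hvV).2.2.1 (subset_tsupport v hx)⟩
  have hpos : 0 < volume Ω := hΩ.measure_pos _ hne
  have hfin : volume Ω ≠ ⊤ := (hv.trans_lt ENNReal.one_lt_top).ne
  set v : ℝ := (volume Ω).toReal with hvdef
  have hv0 : 0 < v := ENNReal.toReal_pos hpos.ne' hfin
  have hv1 : v ≤ 1 := by
    have := ENNReal.toReal_mono ENNReal.one_ne_top hv
    simpa using this
  have hvv : volume Ω = ENNReal.ofReal v := (ENNReal.ofReal_toReal hfin).symm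
  obtain ⟨s, hs, hsv⟩ := exists_root hN (inv_pos.2 hv0)
  have hs1 : 1 ≤ s := by
    by_contra hc
    push Not at hc
    have h1 : s ^ N < 1 := pow_lt_one₀ hs.le hc (by omega)
    rw [hsv] at h1
    have h2 : 1 ≤ v⁻¹ := (one_le_inv₀ hv0).2 hv1
    linarith
  refine ⟨(fun x : E N => s • x) '' Ω, ?_, ?_, ?_⟩
  · have := hΩ.smul₀ hs.ne'
    rwa [← Set.image_smul] at this
  · rw [scale_volume N _ s hs, hvv, ← ENNReal.ofReal_mul (by positivity), hsv,
      inv_mul_cancel₀ hv0.ne', ENNReal.ofReal_one]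
  · refine ray_mono le_rfl ?_ (scale_ray N k Ω s hs c hc)
    apply div_le_self hc0
    exact one_le_pow₀ hs1

theorem general (N : ℕ) (hN : 2 ≤ N) (j : ℕ) (U : Set (E N)) (hU : IsOpen U)
    (hne : 1 ≤ j → U.Nonempty) (ρ : ℝ) (hρ : 0 < ρ)
    (hvol : volume U + 3 * volume (ball (0 : E N) ρ) ≤ 1)
    (h1 : lam N j U ≤ lam N 1 (ball (0 : E N) ρ)) :
    ∃ Ω : Set (E N), IsOpen Ω ∧ volume Ω = 1 ∧
      ∃ c ∈ RaySet N (j + 3) Ω, c < lam N 1 (ball (0 : E N) ρ) := by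
  have : NeZero N := ⟨by omega⟩
  obtain ⟨F, R, hG⟩ := exists_ground N hN
  obtain ⟨Ω3, o3, v3, c3, hc3, hlt⟩ := main_exists N hN F R hG
  have hR := hG.Rpos
  set Λ := lam N 1 (ball (0 : E N) ρ) with hΛ
  have hΛR : (R / ρ) ^ 2 ≤ Λ :=
    lam_lower N 1 le_rfl (ball (0 : E N) ρ) isOpen_ball ⟨0, mem_ball_self hρ⟩ (by omega) _
      fun f hf => ball_ineq N hN F R hG 0 ρ hρ f hf
  have hΛ0 : 0 < Λ := lt_of_lt_of_le (by positivity) hΛR
  have hb1pos : 0 < volume (ball (0 : E N) 1) := measure_ball_pos _ _ one_pos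
  have hb1fin : volume (ball (0 : E N) 1) ≠ ⊤ := measure_ball_lt_top.ne
  set b : ℝ := (volume (ball (0 : E N) 1)).toReal with hb
  have hb0 : 0 < b := ENNReal.toReal_pos hb1pos.ne' hb1fin
  have hbb : volume (ball (0 : E N) 1) = ENNReal.ofReal b := (ENNReal.ofReal_toReal hb1fin).symm
  have hvb : ∀ r : ℝ, 0 < r → volume (ball (0 : E N) r) = ENNReal.ofReal (r ^ N * b) := by
    intro r hr
    rw [vol_ball N 0 r hr, hbb, ← ENNReal.ofReal_mul (by positivity)]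
  obtain ⟨ρ1, hρ1, hρ1N⟩ := exists_root (N := N) (by omega) (show (0 : ℝ) < 1 / (3 * b) by positivity)
  have hc3lt : c3 < (R / ρ1) ^ 2 := by
    apply hlt ρ1 hρ1
    rw [hvb ρ1 hρ1, hρ1N]
    congr 1
    field_simp
  have hc30 := raySet_nonneg N 3 (by norm_num) Ω3 c3 hc3
  -- scale
  set s0 : ℝ := ρ / ρ1 with hs0
  have hs0pos : 0 < s0 := by positivity
  have hs0N : s0 ^ N = 3 * (ρ ^ N * b) := by
    rw [hs0, div_pow, hρ1N]
    field_simp
  have hlt2 : c3 < Λ * s0 ^ 2 := by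
    refine hc3lt.trans_le ?_
    have : (R / ρ1) ^ 2 = (R / ρ) ^ 2 * s0 ^ 2 := by
      rw [hs0]; field_simp
    rw [this]
    exact mul_le_mul_of_nonneg_right hΛR (by positivity)
  obtain ⟨t, ht0, ht1, htc⟩ := exists_t hc30 hlt2
  -- volumes
  have hUfin : volume U ≠ ⊤ := by
    intro h
    rw [h, top_add] at hvol
    exact absurd hvol (not_le.2 ENNReal.one_lt_top)
  set x : ℝ := (volume U).toReal with hx
  have hx0 : 0 ≤ x := ENNReal.toReal_nonneg
  have hxx : volume U = ENNReal.ofReal x := (ENNReal.ofReal_toReal hUfin).symm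
  have hsum : x + 3 * (ρ ^ N * b) ≤ 1 := by
    rw [hxx, hvb ρ hρ, show (3 : ENNReal) = ENNReal.ofReal 3 by simp,
      ← ENNReal.ofReal_mul (by norm_num), ← ENNReal.ofReal_add hx0 (by positivity),
      ENNReal.ofReal_le_one] at hvol
    exact hvol
  have htN : t ^ N < 1 := pow_lt_one₀ ht0.le ht1 (by omega)
  obtain ⟨u, hu1, huA⟩ := exists_u (N := N) (by omega) hx0
    (show x < 1 - t ^ N * (3 * (ρ ^ N * b)) by
      have h2 : 0 < 3 * (ρ ^ N * b) := by positivity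
      nlinarith)
  have hu0 : 0 < u := zero_lt_one.trans hu1
  have hu2 : 1 < u ^ 2 := one_lt_pow₀ hu1 (by norm_num)
  obtain ⟨c1, hc1, hc1lt⟩ : ∃ c1 ∈ RaySet N j U, c1 < Λ * u ^ 2 := by
    rcases Nat.eq_zero_or_pos j with hj | hj
    · subst hj
      exact ⟨0, ray_zero N U 0, by positivity⟩
    · have h2 : sInf (RaySet N j U) < Λ * u ^ 2 := by
        have h3 : lam N j U < Λ * u ^ 2 := h1.trans_lt (by nlinarith)
        exact h3
      exact exists_lt_of_csInf_lt (raySet_nonempty N j (by omega) U hU (hne hj)) h2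
  -- the two pieces
  have r1 : c1 / u ^ 2 ∈ RaySet N j ((fun x : E N => u • x) '' U) := scale_ray N j U u hu0 c1 hc1
  have hst : 0 < s0 * t := by positivity
  have r2 : c3 / (s0 * t) ^ 2 ∈ RaySet N 3 ((fun x : E N => (s0 * t) • x) '' Ω3) :=
    scale_ray N 3 Ω3 (s0 * t) hst c3 hc3
  set c : ℝ := max (c1 / u ^ 2) (c3 / (s0 * t) ^ 2) with hc
  have hcΛ : c < Λ := by
    apply max_lt
    · rw [div_lt_iff₀ (by positivity)]; exact hc1lt
    · rw [div_lt_iff₀ (by positivity), mul_pow, ← mul_assoc]; exact htc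
  obtain ⟨M1, hM1, q1⟩ := ray_bounded (ray_mono le_rfl (le_max_left _ _ : c1 / u ^ 2 ≤ c) r1)
  obtain ⟨M2, hM2, q2⟩ := ray_bounded (ray_mono le_rfl (le_max_right _ _ : c3 / (s0 * t) ^ 2 ≤ c) r2)
  obtain ⟨ω, hω⟩ : ∃ ω : E N, ‖ω‖ = 1 := ⟨EuclideanSpace.single 0 1, by simp⟩
  have q3 := ray_translate ((M1 + M2) • ω) q2
  set A1 : Set (E N) := (fun x : E N => u • x) '' U ∩ ball 0 M1 with hA1
  set A2 : Set (E N) := (fun x : E N => x + (M1 + M2) • ω) ''
    ((fun x : E N => (s0 * t) • x) '' Ω3 ∩ ball 0 M2) with hA2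
  have hdis : Disjoint A1 A2 := by
    rw [Set.disjoint_left]
    rintro y ⟨-, hy⟩ ⟨z, ⟨-, hz⟩, rfl⟩
    rw [mem_ball_zero_iff] at hy hz
    have h2 : ‖(M1 + M2) • ω‖ = M1 + M2 := by
      rw [norm_smul, hω, mul_one, Real.norm_of_nonneg (by linarith)]
    have h3 : ‖(M1 + M2) • ω‖ ≤ ‖z + (M1 + M2) • ω‖ + ‖z‖ := by
      calc ‖(M1 + M2) • ω‖ = ‖(z + (M1 + M2) • ω) - z‖ := by congr 1; abel
        _ ≤ _ := norm_sub_le _ _
    have h4 : ‖z + (M1 + M2) • ω‖ < M1 := hy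
    linarith
  have hray := ray_union hdis q1 q3
  have hA1o : IsOpen A1 := by
    have := hU.smul₀ hu0.ne'
    rw [← Set.image_smul] at this
    exact this.inter isOpen_ball
  have hA2o : IsOpen A2 := by
    have h2 := o3.smul₀ hst.ne'
    rw [← Set.image_smul] at h2
    exact (Homeomorph.addRight ((M1 + M2) • ω)).isOpenMap _ (h2.inter isOpen_ball)
  have hvolA : volume (A1 ∪ A2) ≤ 1 := by
    have e1 : volume A1 ≤ ENNReal.ofReal (u ^ N * x) := by
      refine (measure_mono Set.inter_subset_left).trans (le_of_eq ?_)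
      rw [scale_volume N _ u hu0, hxx, ← ENNReal.ofReal_mul (by positivity)]
    have e2 : volume A2 ≤ ENNReal.ofReal (t ^ N * (3 * (ρ ^ N * b))) := by
      have h2 : volume A2 = volume ((fun x : E N => (s0 * t) • x) '' Ω3 ∩ ball 0 M2) := by
        rw [hA2, Set.image_add_right, measure_preimage_add_right]
      rw [h2]
      refine (measure_mono Set.inter_subset_left).trans (le_of_eq ?_)
      rw [scale_volume N _ (s0 * t) hst, v3, mul_one, mul_pow, hs0N, mul_comm]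
    refine (measure_union_le _ _).trans ((add_le_add e1 e2).trans ?_)
    rw [← ENNReal.ofReal_add (by positivity) (by positivity), ENNReal.ofReal_le_one]
    linarith
  obtain ⟨Ω, hΩ1, hΩ2, hΩ3⟩ := ray_volume_one (by omega) (by omega) (hA1o.union hA2o) hvolA hray
  exact ⟨Ω, hΩ1, hΩ2, c, hΩ3, hcΛ⟩

end Pool.Agent.Y247.KB
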