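import Pool.Agent.Y247.KB.Balls

/-!
# The three statements on the minimization of `λ_k`
-/

set_option autoImplicit false

open MeasureTheory Filter Topology Metric

namespace Pool.Agent.Y247.KB

open Pool.Agent.Helper949.TB

theorem finalA (N : ℕ) (hN : 2 ≤ N) (k : ℕ) (hk : 3 ≤ k) (Ω₀ : Set (E N))
    (q : Fin k → E N) (r : Fin k → ℝ)
    (hv : ∀ i, volume (ball (q i) (r i)) = ENNReal.ofReal (1 / k))
    (hd : ∀ i j, i ≠ j → Disjoint (ball (q i) (r i)) (ball (q j) (r j)))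
    (hΩ : Ω₀ = ⋃ i, ball (q i) (r i)) :
    (∃ Ω : Set (E N), IsOpen Ω ∧ volume Ω = 1 ∧ lam N k Ω < lam N k Ω₀) ∧
      lamStar N k < lam N k Ω₀ := by
  have hkpos : 0 < k := by omega
  have hkR : (0 : ℝ) < k := by exact_mod_cast hkpos
  let i0 : Fin k := ⟨0, hkpos⟩
  have hv0 : (0 : ℝ) < 1 / k := by positivity
  have hr : ∀ i, r i = r i0 := fun i => radius_eq (by omega) hv0 (hv i) (hv i0)
  have hρ : 0 < r i0 := radius_pos (by omega) hv0 (hv i0)
  set ρ := r i0 with hρdef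
  have hΩ' : Ω₀ = ⋃ i, ball (q i) ρ := by
    rw [hΩ]; exact Set.iUnion_congr fun i => by rw [hr i]
  have hd' : ∀ a b, a ≠ b → Disjoint (ball (q a) ρ) (ball (q b) ρ) := by
    intro a b hab
    have := hd a b hab
    rwa [hr a, hr b] at this
  have hvol0 : volume (ball (0 : E N) ρ) = ENNReal.ofReal (1 / k) := by
    rw [← hv i0]; exact (Measure.addHaar_ball_center _ _ _).symm
  obtain ⟨j, rfl⟩ : ∃ j, k = j + 3 := ⟨k - 3, by omega⟩
  obtain ⟨Ω, o, v, c, hc, hlt⟩ := balls_general hN j q hρ hd' (by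
    rw [hvol0, ENNReal.toReal_ofReal hv0.le]
    push_cast
    have : (0 : ℝ) < (j : ℝ) + 3 := by positivity
    rw [mul_one_div_cancel this.ne'])
  have hle := le_lam_balls (by omega : 1 ≤ N) hρ (j + 3) (by omega) q hd'
  rw [← hΩ'] at hle
  have hlt' : lam N (j + 3) Ω < lam N (j + 3) Ω₀ :=
    (lam_le N (j + 3) (by omega) Ω c hc).trans_lt (hlt.trans_le hle)
  exact ⟨⟨Ω, o, v, hlt'⟩, (lamStar_le N (j + 3) (by omega) Ω o v).trans_lt hlt'⟩

theorem finalB (N : ℕ) (hN : 2 ≤ N) (k : ℕ) (hk : 3 ≤ k) (q : E N) (r : ℝ)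
    (hv : volume (ball q r) = 1) :
    lamStar N k < (k : ℝ) ^ (2 / (N : ℝ)) * lam N 1 (ball q r) := by
  have hkpos : 0 < k := by omega
  have hkR : (0 : ℝ) < k := by exact_mod_cast hkpos
  have hNR : (0 : ℝ) < N := by
    have : 0 < N := by omega
    exact_mod_cast this
  have hN1 : 1 ≤ N := by omega
  have hr : 0 < r := radius_pos hN1 one_pos (q := q) (by rw [hv]; simp)
  -- the scaling factor
  set s : ℝ := (k : ℝ) ^ (-(1 / (N : ℝ))) with hs
  have hs0 : 0 < s := Real.rpow_pos_of_pos hkR _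
  have hsN : s ^ N = 1 / k := by
    rw [hs, ← Real.rpow_natCast, ← Real.rpow_mul hkR.le]
    have : -(1 / (N : ℝ)) * (N : ℝ) = -1 := by field_simp
    rw [this, Real.rpow_neg_one, one_div]
  have hs2 : s ^ 2 * (k : ℝ) ^ (2 / (N : ℝ)) = 1 := by
    rw [hs, ← Real.rpow_natCast, ← Real.rpow_mul hkR.le, ← Real.rpow_add hkR]
    have : -(1 / (N : ℝ)) * ((2 : ℕ) : ℝ) + 2 / (N : ℝ) = 0 := by push_cast; ring
    rw [this, Real.rpow_zero]
  have hρ : 0 < s * r := by positivity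
  have hvol0 : volume (ball (0 : E N) (s * r)) = ENNReal.ofReal (1 / k) := by
    rw [vol_ball N 0 (s * r) hρ, mul_pow, hsN, ENNReal.ofReal_mul (by positivity), mul_assoc,
      ← vol_ball N q r hr, hv, mul_one]
  obtain ⟨p, hp⟩ := exists_config (by omega : 1 ≤ N) k hρ
  obtain ⟨j, rfl⟩ : ∃ j, k = j + 3 := ⟨k - 3, by omega⟩
  obtain ⟨Ω, o, v, c, hc, hlt⟩ := balls_general hN j p hρ hp (by
    rw [hvol0, ENNReal.toReal_ofReal (by positivity)]
    push_cast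
    have : (0 : ℝ) < (j : ℝ) + 3 := by positivity
    rw [mul_one_div_cancel this.ne'])
  have h1 : lamStar N (j + 3) < lam N 1 (ball (0 : E N) (s * r)) :=
    ((lamStar_le N (j + 3) (by omega) Ω o v).trans (lam_le N (j + 3) (by omega) Ω c hc)).trans_lt hlt
  have h2 := lam_ball_scale (by omega : 1 ≤ N) (q := q) hr hs0
  have h3 : 0 < ((j + 3 : ℕ) : ℝ) ^ (2 / (N : ℝ)) := Real.rpow_pos_of_pos hkR _
  calc lamStar N (j + 3) < lam N 1 (ball (0 : E N) (s * r)) := h1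
    _ = ((j + 3 : ℕ) : ℝ) ^ (2 / (N : ℝ)) * (s ^ 2 * lam N 1 (ball (0 : E N) (s * r))) := by
        rw [← mul_assoc, mul_comm (((j + 3 : ℕ) : ℝ) ^ (2 / (N : ℝ))) (s ^ 2), hs2, one_mul]
    _ ≤ _ := mul_le_mul_of_nonneg_left h2 h3.le

theorem finalC (N : ℕ) (hN : 2 ≤ N) (j : ℕ) (U : Set (E N)) (hU : IsOpen U)
    (hne : 1 ≤ j → U.Nonempty) (p : Fin 3 → E N) (ρ : ℝ) (hρ : 0 < ρ)
    (hd : ∀ a b, a ≠ b → Disjoint (ball (p a) ρ) (ball (p b) ρ))
    (hdU : ∀ a, Disjoint U (ball (p a) ρ))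
    (hv : volume (U ∪ ⋃ a, ball (p a) ρ) = 1)
    (h1 : lam N j U ≤ lam N 1 (ball (p 0) ρ))
    (h2 : lam N 1 (ball (p 0) ρ) ≤ lam N (j + 3) (U ∪ ⋃ a, ball (p a) ρ)) :
    (∃ Ω : Set (E N), IsOpen Ω ∧ volume Ω = 1 ∧
      lam N (j + 3) Ω < lam N (j + 3) (U ∪ ⋃ a, ball (p a) ρ)) ∧
      lamStar N (j + 3) < lam N (j + 3) (U ∪ ⋃ a, ball (p a) ρ) := by
  have hball : lam N 1 (ball (p 0) ρ) = lam N 1 (ball (0 : E N) ρ) := by
    apply le_antisymm
    · apply le_of_forall_gt_imp_ge_of_dense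
      intro c hc
      exact lam_le N 1 le_rfl _ c (ray_ball (by omega) hρ hc (p 0))
    · exact lam_lower N 1 le_rfl (ball (p 0) ρ) isOpen_ball ⟨p 0, mem_ball_self hρ⟩ (by omega) _
        (fun f hf => lam_one_ball_ineq (p 0) hf)
  have hvol : volume U + 3 * volume (ball (0 : E N) ρ) ≤ 1 := by
    rw [← hv, measure_union (Set.disjoint_iUnion_right.2 hdU)
      (MeasurableSet.iUnion fun a => measurableSet_ball),
      measure_iUnion (fun a b hab => hd a b hab) (fun a => measurableSet_ball), tsum_fintype]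
    have : ∀ a, volume (ball (p a) ρ) = volume (ball (0 : E N) ρ) := fun a =>
      Measure.addHaar_ball_center _ _ _
    simp only [this, Finset.sum_const, Finset.card_univ, Fintype.card_fin, nsmul_eq_mul]
    exact le_rfl
  obtain ⟨Ω, o, v, c, hc, hlt⟩ := general N hN j U hU hne ρ hρ hvol (h1.trans_eq hball)
  have hlt' : lam N (j + 3) Ω < lam N (j + 3) (U ∪ ⋃ a, ball (p a) ρ) :=
    (lam_le N (j + 3) (by omega) Ω c hc).trans_lt (hlt.trans_le (hball.symm.le.trans h2))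
  exact ⟨⟨Ω, o, v, hlt'⟩, (lamStar_le N (j + 3) (by omega) Ω o v).trans_lt hlt'⟩

end Pool.Agent.Y247.KB
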