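import Pool.Agent.Y247.KB.Main

/-!
# Unions of `k` equal balls
-/

set_option autoImplicit false

open MeasureTheory Filter Topology Metric

namespace Pool.Agent.Y247.KB

open Pool.Agent.Helper949.TB

theorem lam_nonneg (N k : ℕ) (hk : 1 ≤ k) (Ω : Set (E N)) : 0 ≤ lam N k Ω :=
  Real.sInf_nonneg fun c hc => raySet_nonneg N k hk Ω c hc

theorem lam_zero (N : ℕ) (Ω : Set (E N)) : lam N 0 Ω = 0 := by
  have : RaySet N 0 Ω = Set.univ := Set.eq_univ_of_forall fun c => ray_zero N Ω c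
  rw [lam, this]
  apply Real.sInf_of_not_bddBelow
  rintro ⟨b, hb⟩
  have := hb (Set.mem_univ (b - 1))
  linarith

theorem ray_ball {N : ℕ} (hN : 1 ≤ N) {ρ c : ℝ} (hρ : 0 < ρ)
    (hc : lam N 1 (ball (0 : E N) ρ) < c) (q : E N) : c ∈ RaySet N 1 (ball q ρ) := by
  obtain ⟨c', hc', hlt⟩ := exists_lt_of_csInf_lt
    (raySet_nonempty N 1 hN (ball (0 : E N) ρ) isOpen_ball ⟨0, mem_ball_self hρ⟩) hc
  refine ray_mono ?_ hlt.le (ray_translate q hc')
  rintro _ ⟨y, hy, rfl⟩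
  rw [mem_ball_zero_iff] at hy
  rw [mem_ball_iff_norm]
  simpa using hy

theorem ray_balls {N : ℕ} (hN : 1 ≤ N) {ρ c : ℝ} (hρ : 0 < ρ)
    (hc : lam N 1 (ball (0 : E N) ρ) < c) (j : ℕ) : ∀ q : Fin j → E N,
    (∀ a b, a ≠ b → Disjoint (ball (q a) ρ) (ball (q b) ρ)) →
    c ∈ RaySet N j (⋃ i, ball (q i) ρ) := by
  induction j with
  | zero => intro q _; exact ray_zero N _ c
  | succ j ih =>
    intro q hd
    have h1 := ih (fun i => q i.castSucc) (fun a b hab => hd _ _ (by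
      intro h; exact hab (Fin.castSucc_injective j h)))
    have h2 := ray_ball hN hρ hc (q (Fin.last j))
    have h3 : Disjoint (⋃ i : Fin j, ball (q i.castSucc) ρ) (ball (q (Fin.last j)) ρ) := by
      rw [Set.disjoint_iUnion_left]
      intro i
      exact hd _ _ (Fin.castSucc_lt_last i).ne
    refine ray_mono ?_ le_rfl (ray_union h3 h1 h2)
    apply Set.union_subset
    · exact Set.iUnion_subset fun i => Set.subset_iUnion (fun i => ball (q i) ρ) i.castSucc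
    · exact Set.subset_iUnion (fun i => ball (q i) ρ) (Fin.last j)

theorem lam_balls_le {N : ℕ} (hN : 1 ≤ N) {ρ : ℝ} (hρ : 0 < ρ) (j : ℕ) (q : Fin j → E N)
    (hd : ∀ a b, a ≠ b → Disjoint (ball (q a) ρ) (ball (q b) ρ)) :
    lam N j (⋃ i, ball (q i) ρ) ≤ lam N 1 (ball (0 : E N) ρ) := by
  rcases Nat.eq_zero_or_pos j with hj | hj
  · subst hj
    rw [lam_zero]
    exact lam_nonneg N 1 le_rfl _
  · apply le_of_forall_gt_imp_ge_of_dense
    intro c hc
    exact lam_le N j hj _ c (ray_balls hN hρ hc j q hd)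

theorem le_lam_balls {N : ℕ} (hN : 1 ≤ N) {ρ : ℝ} (hρ : 0 < ρ) (k : ℕ) (hk : 1 ≤ k)
    (q : Fin k → E N) (hd : ∀ a b, a ≠ b → Disjoint (ball (q a) ρ) (ball (q b) ρ)) :
    lam N 1 (ball (0 : E N) ρ) ≤ lam N k (⋃ i, ball (q i) ρ) := by
  have hop : IsOpen (⋃ i, ball (q i) ρ) := isOpen_iUnion fun i => isOpen_ball
  have hk' : 0 < k := by omega
  let i0 : Fin k := ⟨0, hk'⟩
  have hne : (⋃ i, ball (q i) ρ).Nonempty :=
    ⟨q i0, Set.mem_iUnion.2 ⟨i0, mem_ball_self hρ⟩⟩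
  apply lam_lower N k hk _ hop hne hN _
  intro f hf
  exact union_ineq N k _ ρ (fun q f hf => lam_one_ball_ineq q hf) q (fun a b hab => hd a b hab) f hf

theorem radius_pos {N : ℕ} (hN : 1 ≤ N) {q : E N} {r v : ℝ} (hv : 0 < v)
    (h : volume (ball q r) = ENNReal.ofReal v) : 0 < r := by
  have : NeZero N := ⟨by omega⟩
  by_contra hr
  push Not at hr
  rw [ball_eq_empty.2 hr, measure_empty] at h
  have : (0 : ENNReal) < ENNReal.ofReal v := ENNReal.ofReal_pos.2 hv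
  exact this.ne h

theorem radius_eq {N : ℕ} (hN : 1 ≤ N) {q q' : E N} {r r' v : ℝ} (hv : 0 < v)
    (h : volume (ball q r) = ENNReal.ofReal v) (h' : volume (ball q' r') = ENNReal.ofReal v) :
    r = r' := by
  have : NeZero N := ⟨by omega⟩
  have hr := radius_pos hN hv h
  have hr' := radius_pos hN hv h'
  rw [vol_ball N q r hr] at h
  rw [vol_ball N q' r' hr'] at h'
  have hb1pos : 0 < volume (ball (0 : E N) 1) := measure_ball_pos _ _ one_pos
  have hb1fin : volume (ball (0 : E N) 1) ≠ ⊤ := measure_ball_lt_top.ne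
  have h2 : ENNReal.ofReal (r ^ N) = ENNReal.ofReal (r' ^ N) := by
    have := h.trans h'.symm
    exact (ENNReal.mul_left_inj hb1pos.ne' hb1fin).1 this
  have h3 : r ^ N = r' ^ N := by
    rwa [ENNReal.ofReal_eq_ofReal_iff (by positivity) (by positivity)] at h2
  exact (pow_left_inj₀ hr.le hr'.le (by omega)).1 h3

/-- the general lemma for `k` balls of radius `ρ` and total volume at most one -/
theorem balls_general {N : ℕ} (hN : 2 ≤ N) (j : ℕ) (q : Fin (j + 3) → E N) {ρ : ℝ} (hρ : 0 < ρ)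
    (hd : ∀ a b, a ≠ b → Disjoint (ball (q a) ρ) (ball (q b) ρ))
    (hvol : ((j : ℝ) + 3) * (volume (ball (0 : E N) ρ)).toReal ≤ 1) :
    ∃ Ω : Set (E N), IsOpen Ω ∧ volume Ω = 1 ∧
      ∃ c ∈ RaySet N (j + 3) Ω, c < lam N 1 (ball (0 : E N) ρ) := by
  have hd' : ∀ a b : Fin j, a ≠ b → Disjoint (ball (q (Fin.castAdd 3 a)) ρ)
      (ball (q (Fin.castAdd 3 b)) ρ) := fun a b hab => hd _ _ (by
        intro h; exact hab (Fin.castAdd_injective j 3 h))
  apply general N hN j (⋃ i : Fin j, ball (q (Fin.castAdd 3 i)) ρ) (isOpen_iUnion fun i => isOpen_ball)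
    _ ρ hρ
  · set y : ℝ := (volume (ball (0 : E N) ρ)).toReal with hy
    have hyy : volume (ball (0 : E N) ρ) = ENNReal.ofReal y :=
      (ENNReal.ofReal_toReal measure_ball_lt_top.ne).symm
    have hU : volume (⋃ i : Fin j, ball (q (Fin.castAdd 3 i)) ρ) ≤ ENNReal.ofReal (j * y) := by
      refine (measure_iUnion_fintype_le _ _).trans ?_
      have : ∀ i : Fin j, volume (ball (q (Fin.castAdd 3 i)) ρ) = ENNReal.ofReal y := by
        intro i
        rw [← hyy]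
        exact Measure.addHaar_ball_center _ _ _
      simp only [this, Finset.sum_const, Finset.card_univ, Fintype.card_fin, nsmul_eq_mul]
      rw [ENNReal.ofReal_mul (Nat.cast_nonneg j), ENNReal.ofReal_natCast]
    have hy0 : 0 ≤ y := ENNReal.toReal_nonneg
    rw [hyy]
    calc volume (⋃ i : Fin j, ball (q (Fin.castAdd 3 i)) ρ) + 3 * ENNReal.ofReal y
        ≤ ENNReal.ofReal (j * y) + ENNReal.ofReal (3 * y) := by
          apply add_le_add hU (le_of_eq _)
          rw [ENNReal.ofReal_mul (by norm_num)]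
          simp
      _ = ENNReal.ofReal (j * y + 3 * y) := (ENNReal.ofReal_add (by positivity) (by positivity)).symm
      _ ≤ 1 := by rw [ENNReal.ofReal_le_one]; linarith
  · exact lam_balls_le (by omega) hρ j _ hd'
  · intro hj
    exact ⟨q (Fin.castAdd 3 ⟨0, hj⟩), Set.mem_iUnion.2 ⟨⟨0, hj⟩, mem_ball_self hρ⟩⟩

/-- disjoint balls exist -/
theorem exists_config {N : ℕ} (hN : 1 ≤ N) (k : ℕ) {ρ : ℝ} (hρ : 0 < ρ) : ∃ q : Fin k → E N,
    ∀ a b, a ≠ b → Disjoint (ball (q a) ρ) (ball (q b) ρ) := by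
  have : NeZero N := ⟨by omega⟩
  obtain ⟨ω, hω⟩ : ∃ ω : E N, ‖ω‖ = 1 := ⟨EuclideanSpace.single 0 1, by simp⟩
  refine ⟨fun i => (3 * ρ * (i : ℕ)) • ω, ?_⟩
  intro a b hab
  apply ball_disjoint_ball
  rw [dist_eq_norm, ← sub_smul, norm_smul, hω, mul_one, ← mul_sub, norm_mul,
    Real.norm_of_nonneg (by positivity : 0 ≤ 3 * ρ)]
  have h1 : (1 : ℝ) ≤ ‖((a : ℕ) : ℝ) - ((b : ℕ) : ℝ)‖ := by
    have h2 : ((a : ℕ) : ℤ) ≠ ((b : ℕ) : ℤ) := by
      intro h
      exact hab (Fin.ext (by exact_mod_cast h))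
    have h3 : 1 ≤ |((a : ℕ) : ℤ) - ((b : ℕ) : ℤ)| := Int.one_le_abs (sub_ne_zero.2 h2)
    rw [Real.norm_eq_abs]
    have h4 : ((1 : ℤ) : ℝ) ≤ ((|((a : ℕ) : ℤ) - ((b : ℕ) : ℤ)| : ℤ) : ℝ) := by exact_mod_cast h3
    push_cast at h4
    exact h4
  nlinarith

/-- scaling of the first eigenvalue of balls -/
theorem lam_ball_scale {N : ℕ} (hN : 1 ≤ N) {q : E N} {r s : ℝ} (hr : 0 < r) (hs : 0 < s) :
    s ^ 2 * lam N 1 (ball (0 : E N) (s * r)) ≤ lam N 1 (ball q r) := by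
  apply le_csInf (raySet_nonempty N 1 hN (ball q r) isOpen_ball ⟨q, mem_ball_self hr⟩)
  intro c hc
  have h1 := scale_ray N 1 _ s hs c (ray_translate (-q) hc)
  have h2 : c / s ^ 2 ∈ RaySet N 1 (ball (0 : E N) (s * r)) := by
    refine ray_mono ?_ le_rfl h1
    rintro _ ⟨_, ⟨y, hy, rfl⟩, rfl⟩
    rw [mem_ball_iff_norm] at hy
    rw [mem_ball_zero_iff, norm_smul, Real.norm_of_nonneg hs.le]
    apply mul_lt_mul_of_pos_left _ hs
    show ‖y + -q‖ < r
    rwa [← sub_eq_add_neg]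
  have h3 := lam_le N 1 le_rfl _ _ h2
  rw [le_div_iff₀ (by positivity)] at h3
  linarith

end Pool.Agent.Y247.KB
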