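import Pool.Agent.Y247.KB.Un
import Pool.Agent.Helper949.TB.Main

/-!
# Operations on the sets of admissible Rayleigh bounds
-/

set_option autoImplicit false

open MeasureTheory Filter Topology Metric

namespace Pool.Agent.Y247.KB

open Pool.Agent.Helper949.TB

theorem ray_mono {N k : ℕ} {Ω Ω' : Set (E N)} {c c' : ℝ} (hΩ : Ω ⊆ Ω') (hc : c ≤ c')
    (h : c ∈ RaySet N k Ω) : c' ∈ RaySet N k Ω' := by
  obtain ⟨V, hV, hv⟩ := h
  refine ⟨V, hV, fun v hvV => ?_⟩
  obtain ⟨h1, h2, h3, h4⟩ := hv v hvV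
  exact ⟨h1, h2, h3.trans hΩ,
    h4.trans (mul_le_mul_of_nonneg_right hc (integral_nonneg fun x => sq_nonneg _))⟩

theorem ray_zero (N : ℕ) (Ω : Set (E N)) (c : ℝ) : c ∈ RaySet N 0 Ω := by
  refine ⟨⊥, finrank_bot _ _, ?_⟩
  intro v hv
  rw [Submodule.mem_bot] at hv
  subst hv
  refine ⟨contDiff_const, HasCompactSupport.zero, ?_, ?_⟩
  · have : tsupport (0 : E N → ℝ) = ∅ := by simp [tsupport]
    rw [this]
    exact Set.empty_subset _
  · simp

theorem ray_union {N a b : ℕ} {Ω₁ Ω₂ : Set (E N)} {c : ℝ} (hd : Disjoint Ω₁ Ω₂)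
    (h1 : c ∈ RaySet N a Ω₁) (h2 : c ∈ RaySet N b Ω₂) : c ∈ RaySet N (a + b) (Ω₁ ∪ Ω₂) := by
  rcases Nat.eq_zero_or_pos a with ha | ha
  · subst ha
    rw [zero_add]
    exact ray_mono Set.subset_union_right le_rfl h2
  rcases Nat.eq_zero_or_pos b with hb | hb
  · subst hb
    exact ray_mono Set.subset_union_left le_rfl h1
  obtain ⟨V, hV, hv⟩ := h1
  obtain ⟨W, hW, hw⟩ := h2
  have : FiniteDimensional ℝ V := Module.finite_of_finrank_pos (by omega)
  have : FiniteDimensional ℝ W := Module.finite_of_finrank_pos (by omega)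
  have hnot : ∀ v ∈ V, ∀ w ∈ W, ∀ x, x ∉ tsupport v ∨ x ∉ tsupport w := by
    intro v hvV w hwW x
    by_contra hcon
    push Not at hcon
    exact Set.disjoint_left.1 hd ((hv v hvV).2.2.1 hcon.1) ((hw w hwW).2.2.1 hcon.2)
  have hinf : V ⊓ W = ⊥ := by
    rw [Submodule.eq_bot_iff]
    intro v hvw
    ext x
    rcases hnot v hvw.1 v hvw.2 x with h | h
    · exact image_eq_zero_of_notMem_tsupport h
    · exact image_eq_zero_of_notMem_tsupport h
  refine ⟨V ⊔ W, ?_, ?_⟩
  · have := Submodule.finrank_sup_add_finrank_inf_eq V W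
    rw [hinf, finrank_bot, add_zero, hV, hW] at this
    exact this
  · intro u hu
    obtain ⟨v, hvV, w, hwW, rfl⟩ := Submodule.mem_sup.1 hu
    obtain ⟨a1, a2, a3, a4⟩ := hv v hvV
    obtain ⟨b1, b2, b3, b4⟩ := hw w hwW
    have hfz : ∀ (g : E N → ℝ) (x : E N), x ∉ tsupport g → g x = 0 ∧ fderiv ℝ g x = 0 := by
      intro g x hx
      refine ⟨image_eq_zero_of_notMem_tsupport hx, ?_⟩
      have := notMem_tsupport_iff_eventuallyEq.1 hx
      rw [this.fderiv_eq]
      exact fderiv_const_apply (0 : ℝ)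
    have hfd : ∀ x, fderiv ℝ (v + w) x = fderiv ℝ v x + fderiv ℝ w x := fun x =>
      fderiv_add (a1.differentiable (by simp) x) (b1.differentiable (by simp) x)
    have p1 : ∀ x, (v + w) x ^ 2 = v x ^ 2 + w x ^ 2 := by
      intro x
      rw [Pi.add_apply]
      rcases hnot v hvV w hwW x with h | h
      · rw [(hfz v x h).1]; ring
      · rw [(hfz w x h).1]; ring
    have p2 : ∀ x, ‖fderiv ℝ (v + w) x‖ ^ 2 = ‖fderiv ℝ v x‖ ^ 2 + ‖fderiv ℝ w x‖ ^ 2 := by
      intro x
      rw [hfd x]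
      rcases hnot v hvV w hwW x with h | h
      · rw [(hfz v x h).2]; simp
      · rw [(hfz w x h).2]; simp
    refine ⟨a1.add b1, a2.add b2, ?_, ?_⟩
    · refine (tsupport_add v w).trans (Set.union_subset_union a3 b3)
    · simp only [p1, p2]
      rw [integral_add (aux_int2 v a1 a2) (aux_int2 w b1 b2),
        integral_add (aux_int1 v a1 a2) (aux_int1 w b1 b2), mul_add]
      exact add_le_add a4 b4

theorem ray_bounded {N k : ℕ} {Ω : Set (E N)} {c : ℝ} (h : c ∈ RaySet N k Ω) :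
    ∃ M : ℝ, 0 < M ∧ c ∈ RaySet N k (Ω ∩ ball 0 M) := by
  rcases Nat.eq_zero_or_pos k with hk | hk
  · subst hk
    exact ⟨1, one_pos, ray_zero N _ c⟩
  obtain ⟨V, hV, hv⟩ := h
  have : FiniteDimensional ℝ V := Module.finite_of_finrank_pos (by omega)
  let b := Module.finBasis ℝ V
  let K : Set (E N) := ⋃ i, tsupport ((b i : V) : E N → ℝ)
  have hKc : IsCompact K := isCompact_iUnion fun i => (hv _ (b i).2).2.1
  obtain ⟨M, hM⟩ := hKc.isBounded.subset_ball (0 : E N)
  refine ⟨max M 1, lt_of_lt_of_le one_pos (le_max_right _ _), V, hV, fun v hvV => ?_⟩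
  obtain ⟨h1, h2, h3, h4⟩ := hv v hvV
  refine ⟨h1, h2, ?_, h4⟩
  refine Set.subset_inter h3 ?_
  have hsup : Function.support v ⊆ K := by
    intro x hx
    by_contra hxK
    apply hx
    have hz : ∀ i, ((b i : V) : E N → ℝ) x = 0 := by
      intro i
      apply image_eq_zero_of_notMem_tsupport
      intro h5
      exact hxK (Set.mem_iUnion.2 ⟨i, h5⟩)
    have h6 := b.sum_repr ⟨v, hvV⟩
    have h7 : v = ∑ i, (b.repr ⟨v, hvV⟩ i) • ((b i : V) : E N → ℝ) := by
      have := congrArg (fun u : V => (u : E N → ℝ)) h6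
      simp only [Submodule.coe_sum, Submodule.coe_smul] at this
      exact this.symm
    rw [h7, Finset.sum_apply]
    apply Finset.sum_eq_zero
    intro i _
    rw [Pi.smul_apply, hz i, smul_zero]
  have h8 : tsupport v ⊆ K := closure_minimal hsup hKc.isClosed
  exact (h8.trans hM).trans (ball_subset_ball (le_max_left _ _))

theorem ray_translate {N k : ℕ} {Ω : Set (E N)} {c : ℝ} (a : E N) (h : c ∈ RaySet N k Ω) :
    c ∈ RaySet N k ((fun x : E N => x + a) '' Ω) := by
  obtain ⟨V, hV, hV'⟩ := h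
  let e : E N ≃ E N :=
    { toFun := fun x => x - a
      invFun := fun x => x + a
      left_inv := fun x => by simp
      right_inv := fun x => by simp }
  let L : (E N → ℝ) ≃ₗ[ℝ] (E N → ℝ) := LinearEquiv.funCongrLeft ℝ ℝ e
  refine ⟨V.map (L : (E N → ℝ) →ₗ[ℝ] (E N → ℝ)), ?_, ?_⟩
  · rw [LinearEquiv.finrank_map_eq]
    exact hV
  · rintro _ ⟨v, hv, rfl⟩
    obtain ⟨h1, h2, h3, h4⟩ := hV' v hv
    have hL : (L : (E N → ℝ) →ₗ[ℝ] (E N → ℝ)) v = fun x => v (x - a) := rfl
    rw [hL]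
    have hfd : ∀ x, fderiv ℝ (fun x => v (x - a)) x = fderiv ℝ v (x - a) := by
      intro x
      have hd : HasFDerivAt v (fderiv ℝ v (x - a)) (x - a) :=
        (h1.differentiable (by simp) (x - a)).hasFDerivAt
      have h5 : HasFDerivAt (fun x : E N => x - a) (ContinuousLinearMap.id ℝ (E N)) x :=
        (hasFDerivAt_id x).sub_const a
      have h6 := hd.comp x h5
      rw [ContinuousLinearMap.comp_id] at h6
      exact h6.fderiv
    have hcont : Continuous (fun x : E N => x - a) := continuous_id.sub continuous_const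
    refine ⟨?_, ?_, ?_, ?_⟩
    · exact h1.comp (contDiff_id.sub contDiff_const)
    · exact h2.comp_homeomorph (Homeomorph.subRight a)
    · intro x hx
      have h5 : tsupport (v ∘ (fun x : E N => x - a)) ⊆ (fun x : E N => x - a) ⁻¹' tsupport v :=
        tsupport_comp_subset_preimage v hcont
      have h6 : x - a ∈ tsupport v := h5 hx
      exact ⟨x - a, h3 h6, by simp⟩
    · simp only [hfd]
      rw [integral_sub_right_eq_self (fun x => ‖fderiv ℝ v x‖ ^ 2) a,
        integral_sub_right_eq_self (fun x => v x ^ 2) a]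
      exact h4

/-- the Poincare inequality with the first eigenvalue -/
theorem lam_one_ineq {N : ℕ} {Ω : Set (E N)} {f : E N → ℝ} (hf : IsTest Ω f) :
    lam N 1 Ω * ∫ x, f x ^ 2 ≤ ∫ x, ‖fderiv ℝ f x‖ ^ 2 := by
  obtain ⟨h1, h2, h3⟩ := hf
  by_cases h0 : f = 0
  · subst h0
    simp
  · have hpos : 0 < ∫ x, f x ^ 2 := by
      obtain ⟨x, hx⟩ := Function.ne_iff.1 h0
      have hs2 : HasCompactSupport (fun x => f x ^ 2) :=
        h2.comp_left (g := fun t : ℝ => t ^ 2) (by norm_num)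
      exact (h1.continuous.pow 2).integral_pos_of_hasCompactSupport_nonneg_nonzero hs2
        (fun x => sq_nonneg _) (x := x) (pow_ne_zero 2 hx)
    rw [← le_div_iff₀ hpos]
    apply lam_le N 1 le_rfl
    refine ⟨Submodule.span ℝ {f}, finrank_span_singleton h0, ?_⟩
    intro v hv
    obtain ⟨t, rfl⟩ := Submodule.mem_span_singleton.1 hv
    have hfd : ∀ x, fderiv ℝ (t • f) x = t • fderiv ℝ f x := fun x =>
      fderiv_const_smul (h1.differentiable (by simp) x) t
    refine ⟨h1.const_smul t, ?_, ?_, ?_⟩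
    · exact h2.mono (Function.support_const_smul_subset t f)
    · exact (closure_mono (Function.support_const_smul_subset t f)).trans h3
    · simp only [hfd, norm_smul, mul_pow, Pi.smul_apply, smul_eq_mul]
      rw [integral_const_mul, integral_const_mul]
      have : (∫ x, ‖fderiv ℝ f x‖ ^ 2) / (∫ x, f x ^ 2) * (t ^ 2 * ∫ x, f x ^ 2) =
          t ^ 2 * ∫ x, ‖fderiv ℝ f x‖ ^ 2 := by
        field_simp
      rw [this, Real.norm_eq_abs, sq_abs]

theorem lam_one_ball_ineq {N : ℕ} {ρ : ℝ} (q : E N) {f : E N → ℝ} (hf : IsTest (ball q ρ) f) :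
    lam N 1 (ball (0 : E N) ρ) * ∫ x, f x ^ 2 ≤ ∫ x, ‖fderiv ℝ f x‖ ^ 2 := by
  obtain ⟨h1, h2, h3⟩ := hf
  have hcont : Continuous (fun x : E N => x + q) := continuous_id.add continuous_const
  have hg : IsTest (ball (0 : E N) ρ) (fun x => f (x + q)) := by
    refine ⟨h1.comp (contDiff_id.add contDiff_const), h2.comp_homeomorph (Homeomorph.addRight q), ?_⟩
    intro x hx
    have h5 : tsupport (f ∘ (fun x : E N => x + q)) ⊆ (fun x : E N => x + q) ⁻¹' tsupport f :=
      tsupport_comp_subset_preimage f hcont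
    have h6 := h3 (h5 hx)
    rw [mem_ball_iff_norm] at h6
    rw [mem_ball_zero_iff]
    simpa using h6
  have h := lam_one_ineq hg
  have hfd : ∀ x, fderiv ℝ (fun x => f (x + q)) x = fderiv ℝ f (x + q) := by
    intro x
    have hd : HasFDerivAt f (fderiv ℝ f (x + q)) (x + q) :=
      (h1.differentiable (by simp) (x + q)).hasFDerivAt
    have h5 : HasFDerivAt (fun x : E N => x + q) (ContinuousLinearMap.id ℝ (E N)) x :=
      (hasFDerivAt_id x).add_const q
    have h6 := hd.comp x h5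
    rw [ContinuousLinearMap.comp_id] at h6
    exact h6.fderiv
  simp only [hfd] at h
  rw [integral_add_right_eq_self (fun x => ‖fderiv ℝ f x‖ ^ 2) q,
    integral_add_right_eq_self (fun x => f x ^ 2) q] at h
  exact h

end Pool.Agent.Y247.KB
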