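import Mathlib
import Pool.Agent.Helper949.TB.Defs

/-!
# The Poincare inequality on a union of disjoint balls (adapted from Helper949.TB.J3a)
-/

set_option autoImplicit false

open MeasureTheory Filter Topology Metric

namespace Pool.Agent.Y247.KB

open Pool.Agent.Helper949.TB

theorem aux_int1 {N : ℕ} (g : E N → ℝ) (h : ContDiff ℝ (⊤ : ℕ∞) g) (hc : HasCompactSupport g) :
    Integrable (fun x => g x ^ 2) := by
  have h1 : Continuous (fun x => g x ^ 2) := h.continuous.pow 2
  have h2 : HasCompactSupport (fun x => g x ^ 2) := by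
    refine hc.mono ?_
    intro x hx
    rw [Function.mem_support] at hx ⊢
    intro h0
    rw [h0] at hx
    norm_num at hx
  exact h1.integrable_of_hasCompactSupport h2

theorem aux_int2 {N : ℕ} (g : E N → ℝ) (h : ContDiff ℝ (⊤ : ℕ∞) g) (hc : HasCompactSupport g) :
    Integrable (fun x => ‖fderiv ℝ g x‖ ^ 2) := by
  have h1 : Continuous (fun x => ‖fderiv ℝ g x‖ ^ 2) := (h.continuous_fderiv (by simp)).norm.pow 2
  have h2 : HasCompactSupport (fun x => ‖fderiv ℝ g x‖ ^ 2) := by
    have h3 := hc.fderiv (𝕜 := ℝ)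
    refine HasCompactSupport.mono (f := fderiv ℝ g) (f' := fun x => ‖fderiv ℝ g x‖ ^ 2) h3 ?_
    intro x hx
    rw [Function.mem_support] at hx ⊢
    intro h0
    rw [h0] at hx
    norm_num at hx
  exact h1.integrable_of_hasCompactSupport h2

theorem union_ineq (N k : ℕ) (m ρ : ℝ)
    (hball : ∀ (q : E N) (f : E N → ℝ), IsTest (ball q ρ) f →
      m * ∫ x, f x ^ 2 ≤ ∫ x, ‖fderiv ℝ f x‖ ^ 2)
    (q : Fin k → E N)
    (hd : Pairwise fun i j => Disjoint (ball (q i) ρ) (ball (q j) ρ))
    (f : E N → ℝ) (hf : IsTest (⋃ i, ball (q i) ρ) f) :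
    m * ∫ x, f x ^ 2 ≤ ∫ x, ‖fderiv ℝ f x‖ ^ 2 := by
  classical
  obtain ⟨hsm, hcs, hts⟩ := hf
  let g : Fin k → E N → ℝ := fun i => Set.indicator (ball (q i) ρ) f
  -- local description
  have hin : ∀ i x, x ∈ ball (q i) ρ → g i =ᶠ[𝓝 x] f := by
    intro i x hx
    filter_upwards [isOpen_ball.mem_nhds hx] with y hy
    exact Set.indicator_of_mem hy f
  have hout : ∀ i j x, i ≠ j → x ∈ ball (q i) ρ → g j =ᶠ[𝓝 x] 0 := by
    intro i j x hij hx
    filter_upwards [isOpen_ball.mem_nhds hx] with y hy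
    exact Set.indicator_of_notMem (fun h => Set.disjoint_left.1 (hd hij) hy h) f
  have hfar0 : ∀ x, (∀ i, x ∉ ball (q i) ρ) → f =ᶠ[𝓝 x] 0 := by
    intro x hx
    rw [← notMem_tsupport_iff_eventuallyEq]
    intro h
    obtain ⟨i, hi⟩ := Set.mem_iUnion.1 (hts h)
    exact hx i hi
  have hfar : ∀ j x, (∀ i, x ∉ ball (q i) ρ) → g j =ᶠ[𝓝 x] 0 := by
    intro j x hx
    filter_upwards [hfar0 x hx] with y hy
    show Set.indicator (ball (q j) ρ) f y = 0
    by_cases h : y ∈ ball (q j) ρ
    · rw [Set.indicator_of_mem h]; exact hy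
    · exact Set.indicator_of_notMem h f
  have hgs : ∀ i, ContDiff ℝ (⊤ : ℕ∞) (g i) := by
    intro i
    rw [contDiff_iff_contDiffAt]
    intro x
    by_cases h : ∃ j, x ∈ ball (q j) ρ
    · obtain ⟨j, hj⟩ := h
      by_cases hij : j = i
      · rw [hij] at hj
        exact hsm.contDiffAt.congr_of_eventuallyEq (hin i x hj)
      · exact contDiffAt_const.congr_of_eventuallyEq (hout j i x hij hj)
    · push Not at h
      exact contDiffAt_const.congr_of_eventuallyEq (hfar i x h)
  have hsub : ∀ i, Function.support (g i) ⊆ Function.support f := by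
    intro i x hx
    rw [Function.mem_support] at hx ⊢
    intro h0
    apply hx
    show Set.indicator (ball (q i) ρ) f x = 0
    by_cases h : x ∈ ball (q i) ρ
    · rw [Set.indicator_of_mem h]; exact h0
    · exact Set.indicator_of_notMem h f
  have hgc : ∀ i, HasCompactSupport (g i) := fun i => hcs.mono (hsub i)
  have hgt : ∀ i, tsupport (g i) ⊆ ball (q i) ρ := by
    intro i x hx
    have hx' : x ∈ tsupport f := closure_mono (hsub i) hx
    obtain ⟨j, hj⟩ := Set.mem_iUnion.1 (hts hx')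
    by_cases hij : j = i
    · rwa [hij] at hj
    · exfalso
      exact (notMem_tsupport_iff_eventuallyEq.2 (hout j i x hij hj)) hx
  have hzero : ∀ j x, g j =ᶠ[𝓝 x] 0 → g j x = 0 ∧ fderiv ℝ (g j) x = 0 := by
    intro j x h
    refine ⟨h.self_of_nhds, ?_⟩
    rw [h.fderiv_eq]
    exact fderiv_const_apply (0:ℝ)
  have hpt : ∀ x, f x ^ 2 = ∑ i, g i x ^ 2 ∧ ‖fderiv ℝ f x‖ ^ 2 = ∑ i, ‖fderiv ℝ (g i) x‖ ^ 2 := by
    intro x
    by_cases h : ∃ j, x ∈ ball (q j) ρ
    · obtain ⟨j, hj⟩ := h
      constructor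
      · rw [Finset.sum_eq_single j]
        · rw [(hin j x hj).self_of_nhds]
        · intro i _ hij
          rw [(hzero i x (hout j i x (Ne.symm hij) hj)).1]; norm_num
        · intro h; exact absurd (Finset.mem_univ _) h
      · rw [Finset.sum_eq_single j]
        · rw [(hin j x hj).fderiv_eq]
        · intro i _ hij
          rw [(hzero i x (hout j i x (Ne.symm hij) hj)).2, norm_zero]; norm_num
        · intro h; exact absurd (Finset.mem_univ _) h
    · push Not at h
      have e1 : f x = 0 := (hfar0 x h).self_of_nhds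
      have e2 : fderiv ℝ f x = 0 := by
        rw [(hfar0 x h).fderiv_eq]
        exact fderiv_const_apply (0:ℝ)
      constructor
      · rw [e1, Finset.sum_eq_zero]
        · norm_num
        · intro i _
          rw [(hzero i x (hfar i x h)).1]; norm_num
      · rw [e2, norm_zero, Finset.sum_eq_zero]
        · norm_num
        · intro i _
          rw [(hzero i x (hfar i x h)).2, norm_zero]; norm_num
  have hi1 : ∀ i, Integrable (fun x => g i x ^ 2) := fun i => aux_int1 (g i) (hgs i) (hgc i)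
  have hi2 : ∀ i, Integrable (fun x => ‖fderiv ℝ (g i) x‖ ^ 2) :=
    fun i => aux_int2 (g i) (hgs i) (hgc i)
  have e1 : ∫ x, f x ^ 2 = ∑ i, ∫ x, g i x ^ 2 := by
    rw [← integral_finset_sum _ (fun i _ => hi1 i)]
    exact integral_congr_ae (Filter.Eventually.of_forall (fun x => (hpt x).1))
  have e2 : ∫ x, ‖fderiv ℝ f x‖ ^ 2 = ∑ i, ∫ x, ‖fderiv ℝ (g i) x‖ ^ 2 := by
    rw [← integral_finset_sum _ (fun i _ => hi2 i)]
    exact integral_congr_ae (Filter.Eventually.of_forall (fun x => (hpt x).2))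
  rw [e1, e2, Finset.mul_sum]
  exact Finset.sum_le_sum (fun i _ => hball (q i) (g i) ⟨hgs i, hgc i, hgt i⟩)
end Pool.Agent.Y247.KB

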